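import Pool.Agent.Lib.MP_54d1f6_an.Final

namespace Pool.Agent.Results.MP_54d1f6_an.Talenti

open MeasureTheory Metric
open Pool.Agent.Lib.MP_54d1f6_an

/-- L1 Talenti comparison for the Robin problem in every dimension. -/
theorem result (N : ℕ) (hN : 2 ≤ N) (β : ℝ) (hβ : 0 < β) (Ω : Set (E N))
    (hΩ : IsLipschitzDomain Ω) (f : E N → ℝ) (hf : MemLp f 2 (volume.restrict Ω))
    (hf0 : ∀ᵐ x ∂(volume.restrict Ω), 0 ≤ f x) (R : ℝ) (hR : 0 < R)
    (hvol : volume (ball (0 : E N) R) = volume Ω) (u v : E N → ℝ)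
    (hu : IsWeakSolution β Ω f u)
    (hv : IsWeakSolution β (ball (0 : E N) R) (schwarz Ω f) v) :
    eLpNorm u 1 (volume.restrict Ω) ≤ eLpNorm v 1 (volume.restrict (ball (0 : E N) R)) :=
  final (by omega) hβ hΩ hf hf0 hR hvol hu hv

end Pool.Agent.Results.MP_54d1f6_an.Talenti
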